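import Pool.Agent.Y648.GR.D

/-!
For every `ε > 0` there is a Banach space at distance at most `1 + O(ε)` from a Hilbert space,
whose modulus of smoothness is at most the modulus of a Hilbert space dilated by `√(1 + ε)`, with
a countable dictionary of unit vectors, an element `f` of norm `1` and one sequence of residuals
of norms at least `1 - ε` which is, for every `t ∈ (0, 1]` at once, an admissible run of the
WDGA(`t`) started at `f`. In a Hilbert space the WDGA(`t`) always converges.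
-/

set_option autoImplicit false

open Filter Topology

namespace Pool.Agent.Results.MP_ecafc5_an.NearHilbert

/-- The modulus of smoothness of `X`. -/
noncomputable def modulus (X : Type) [NormedAddCommGroup X] [NormedSpace ℝ X] (u : ℝ) : ℝ :=
  sSup {v : ℝ | ∃ x y : X, ‖x‖ = 1 ∧ ‖y‖ = 1 ∧ v = (‖x + u • y‖ + ‖x - u • y‖) / 2 - 1}

/-- The modulus of smoothness of `X` has power type `q`. -/
def PowerType (X : Type) [NormedAddCommGroup X] [NormedSpace ℝ X] (q : ℝ) : Prop :=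
  ∃ γ : ℝ, 0 < γ ∧ ∀ u : ℝ, 0 < u → modulus X u ≤ γ * u ^ q

/-- `X` is uniformly smooth. -/
def UniformlySmooth (X : Type) [NormedAddCommGroup X] [NormedSpace ℝ X] : Prop :=
  Tendsto (fun u : ℝ => modulus X u / u) (𝓝[>] 0) (𝓝 0)

/-- `T` distorts norms by a factor between `1 - ε` and `1`, from a Hilbert space onto `X`. -/
def NearlyHilbert (ε : ℝ) (X : Type) [NormedAddCommGroup X] [NormedSpace ℝ X] : Prop :=
  ∃ (H : Type) (_ : NormedAddCommGroup H) (_ : InnerProductSpace ℝ H) (_ : CompleteSpace H)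
    (T : H ≃ₗ[ℝ] X), ∀ x, (1 - ε) * ‖x‖ ≤ ‖T x‖ ∧ ‖T x‖ ≤ ‖x‖

section

variable {X : Type} [NormedAddCommGroup X] [NormedSpace ℝ X]

/-- `D` is a dictionary: `‖g‖ ≤ 1` and `-g ∈ D` for `g ∈ D`, and the linear span of `D` is
dense. -/
structure IsDictionary (D : Set X) : Prop where
  norm_le : ∀ g ∈ D, ‖g‖ ≤ 1
  symm : ∀ g ∈ D, -g ∈ D
  dense_span : Dense ((Submodule.span ℝ D : Submodule ℝ X) : Set X)

/-- The quantity `‖F‖_D`, the supremum of `F` over `D`. -/
noncomputable def dictNorm (D : Set X) (F : X →L[ℝ] ℝ) : ℝ := sSup (F '' D)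

/-- `F` is a norming functional of `f`. -/
def IsNorming (F : X →L[ℝ] ℝ) (f : X) : Prop := ‖F‖ = 1 ∧ F f = ‖f‖

/-- One step of the WDGA(`t`), from the residual `f` to the residual `f'`. -/
def Step (t : ℝ) (D : Set X) (f f' : X) : Prop :=
  ∃ (F : X →L[ℝ] ℝ) (φ : X) (a : ℝ), IsNorming F f ∧ φ ∈ D ∧ t * dictNorm D F ≤ F φ ∧
    (∀ b : ℝ, ‖f - a • φ‖ ≤ ‖f - b • φ‖) ∧ f' = f - a • φ

/-- `r` is the sequence of residuals of an admissible run of the WDGA(`t`) started at `f`; the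
algorithm stops at a zero residual. -/
def IsRun (t : ℝ) (D : Set X) (f : X) (r : ℕ → X) : Prop :=
  r 0 = f ∧ ∀ m, (r m = 0 → r (m + 1) = 0) ∧ (r m ≠ 0 → Step t D (r m) (r (m + 1)))

/-- The WDGA(`t`) with dictionary `D` converges for `f`. -/
def ConvergesFor (t : ℝ) (D : Set X) (f : X) : Prop :=
  ∀ r : ℕ → X, IsRun t D f r → Tendsto (fun m => ‖r m‖) atTop (𝓝 0)

end

/-! ### Proof -/

open Pool.Agent.Y648.GR

lemma modulus_le {q : ℕ} (hq : 4 ≤ q) (u : ℝ) (hu : 0 < u) :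
    modulus (XX q) u ≤ Real.sqrt (1 + kap q * u ^ 2) - 1 := by
  have hk := kap_ge q hq
  apply Real.sSup_le
  · rintro v ⟨x, y, hx, hy, rfl⟩
    exact smoothX hq x y hx hy u hu
  · have : 1 ≤ Real.sqrt (1 + kap q * u ^ 2) := by
      rw [Real.one_le_sqrt]
      have : 0 ≤ kap q * u ^ 2 := by positivity
      linarith
    linarith

lemma modulus_nonneg (X : Type) [NormedAddCommGroup X] [NormedSpace ℝ X] (u : ℝ) :
    0 ≤ modulus X u := by
  apply Real.sSup_nonneg
  rintro v ⟨x, y, hx, hy, rfl⟩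
  have h1 : ‖(x + u • y) + (x - u • y)‖ ≤ ‖x + u • y‖ + ‖x - u • y‖ := norm_add_le _ _
  have h2 : (x + u • y) + (x - u • y) = (2:ℝ) • x := by rw [two_smul]; abel
  rw [h2, norm_smul, hx, Real.norm_eq_abs, abs_two] at h1
  linarith

lemma modulus_le' {q : ℕ} (hq : 4 ≤ q) (u : ℝ) (hu : 0 < u) :
    modulus (XX q) u ≤ 1 * u ^ (2 : ℝ) := by
  refine (modulus_le hq u hu).trans ?_
  have h1 := kap_le q hq
  have h2 := cc_le hq
  have h3 := kap_ge q hq
  rw [one_mul, Real.rpow_two]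
  have h4 : Real.sqrt (1 + kap q * u ^ 2) ≤ 1 + u ^ 2 := by
    rw [Real.sqrt_le_left (by positivity)]
    nlinarith [sq_nonneg u, sq_nonneg (u ^ 2)]
  linarith

lemma uniformly_smooth {q : ℕ} (hq : 4 ≤ q) : UniformlySmooth (XX q) := by
  have h1 : Tendsto (fun u : ℝ => u) (𝓝[>] 0) (𝓝 0) := nhdsWithin_le_nhds
  apply squeeze_zero' _ _ h1
  · filter_upwards [self_mem_nhdsWithin] with u hu
    exact div_nonneg (modulus_nonneg (XX q) u) (le_of_lt hu)
  · filter_upwards [self_mem_nhdsWithin] with u hu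
    have hu' : (0:ℝ) < u := hu
    rw [div_le_iff₀ hu']
    have := modulus_le' hq u hu'
    rw [Real.rpow_two] at this
    nlinarith

/-- **Main result.** For every `ε > 0` there are a Banach space `X`, a linear bijection from a
Hilbert space onto `X` which distorts norms by factors between `1 - ε` and `1`, such that the
modulus of smoothness of `X` is at most `√(1 + (1 + ε) u²) - 1` (for a Hilbert space it is
`√(1 + u²) - 1`), a countable dictionary `D` of unit vectors, an element `f` of norm `1` and a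
sequence `r` with `1 - ε ≤ ‖r m‖` for all `m` which, for every `t ∈ (0, 1]`, is the sequence of
residuals of an admissible run of the WDGA(`t`) started at `f`. So for every `t ∈ (0, 1]` the
WDGA(`t`) with dictionary `D` does not converge for `f`. -/
theorem result : ∀ ε : ℝ, 0 < ε → ∃ (X : Type) (_ : NormedAddCommGroup X) (_ : NormedSpace ℝ X)
    (_ : CompleteSpace X), PowerType X 2 ∧ UniformlySmooth X ∧ NearlyHilbert ε X ∧
      (∀ u : ℝ, 0 < u → modulus X u ≤ Real.sqrt (1 + (1 + ε) * u ^ 2) - 1) ∧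
      ∃ D : Set X, IsDictionary D ∧ (∀ g ∈ D, ‖g‖ = 1) ∧ D.Countable ∧
        ∃ (f : X) (r : ℕ → X), ‖f‖ = 1 ∧ (∀ m, 1 - ε ≤ ‖r m‖) ∧
          ∀ t : ℝ, 0 < t → t ≤ 1 → IsRun t D f r ∧ ¬ ConvergesFor t D f := by
  intro ε hε
  obtain ⟨n, hn⟩ := exists_nat_gt (3 / ε)
  obtain ⟨q, hq, hqn⟩ : ∃ q : ℕ, 4 ≤ q ∧ n ≤ q := ⟨max 4 n, le_max_left _ _, le_max_right _ _⟩
  have hqε : 3 * cc q ≤ ε := by
    have h1 : (n : ℝ) ≤ q := by exact_mod_cast hqn
    have h2 : 3 / ε < q := lt_of_lt_of_le hn h1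
    have h3 : (0 : ℝ) < q := lt_trans (by positivity) h2
    rw [div_lt_iff₀ hε] at h2
    unfold cc
    rw [mul_one_div, div_le_iff₀ h3]
    linarith
  have hc := cc_pos hq
  have hlow : ∀ m, 1 - ε ≤ ‖fX q m‖ := fun m => by
    rw [norm_fX hq]
    have := lam_ge' hq m
    linarith
  have hlow' : ∀ m, (1 : ℝ) / 2 ≤ ‖fX q m‖ := fun m => by
    rw [norm_fX hq]
    have := lam_ge hq m
    linarith
  have hnorm : ∀ g ∈ DD q, ‖g‖ = 1 := by
    rintro g ⟨j, rfl | rfl⟩
    · exact norm_gX hq j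
    · rw [norm_neg]; exact norm_gX hq j
  have hmax : ∀ m, ∀ g ∈ DD q, FX q hq m g ≤ FX q hq m (gX q m) := by
    rintro m g ⟨j, rfl | rfl⟩
    · exact (le_abs_self _).trans (FX_le hq j m)
    · rw [map_neg]; exact (neg_le_abs _).trans (FX_le hq j m)
  have hnn : ∀ m, 0 ≤ FX q hq m (gX q m) := fun m => (abs_nonneg _).trans (FX_le hq m m)
  have hrun : ∀ t : ℝ, 0 < t → t ≤ 1 → IsRun t (DD q) (fX q 0) (fX q) := by
    intro t ht0 ht1
    refine ⟨rfl, fun m => ⟨fun h0 => ?_, fun _ => ⟨FX q hq m, gX q m, aa q m,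
      ⟨norm_FX hq m, by rw [FX_fX, norm_fX hq]⟩, gX_mem q m, ?_, line_opt hq m, fX_succ hq m⟩⟩⟩
    · have := hlow' m
      rw [h0, norm_zero] at this
      norm_num at this
    · have h1 : dictNorm (DD q) (FX q hq m) ≤ FX q hq m (gX q m) := by
        apply csSup_le
        · exact ⟨_, gX q m, gX_mem q m, rfl⟩
        · rintro v ⟨g, hg, rfl⟩
          exact hmax m g hg
      have h2 : 0 ≤ dictNorm (DD q) (FX q hq m) := by
        apply (hnn m).trans
        apply le_csSup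
        · refine ⟨FX q hq m (gX q m), ?_⟩
          rintro v ⟨g, hg, rfl⟩
          exact hmax m g hg
        · exact ⟨gX q m, gX_mem q m, rfl⟩
      calc t * dictNorm (DD q) (FX q hq m) ≤ 1 * dictNorm (DD q) (FX q hq m) :=
            mul_le_mul_of_nonneg_right ht1 h2
        _ = dictNorm (DD q) (FX q hq m) := one_mul _
        _ ≤ _ := h1
  refine ⟨XX q, inferInstance, inferInstance, inferInstance,
    ⟨1, one_pos, modulus_le' hq⟩, uniformly_smooth hq, ⟨↥(HH q), inferInstance, inferInstance, inferInstance, TT q, fun x => ⟨?_, norm_TT_le q x⟩⟩,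
    fun u hu => ?_, DD q, ⟨fun g hg => (hnorm g hg).le, ?_, dense_span hq⟩,
    hnorm, ?_, fX q 0, fX q, ?_, hlow, fun t ht0 ht1 => ⟨hrun t ht0 ht1, ?_⟩⟩
  · have h1 := norm_TT_ge q x
    have h2 : 0 ≤ ‖TT q x‖ := norm_nonneg _
    have h3 : 0 ≤ ‖x‖ := norm_nonneg _
    have h4 := norm_TT_le q x
    nlinarith
  · refine (modulus_le hq u hu).trans ?_
    have h1 := kap_le q hq
    have h2 : kap q * u ^ 2 ≤ (1 + ε) * u ^ 2 :=
      mul_le_mul_of_nonneg_right (by linarith) (sq_nonneg u)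
    have h3 : Real.sqrt (1 + kap q * u ^ 2) ≤ Real.sqrt (1 + (1 + ε) * u ^ 2) :=
      Real.sqrt_le_sqrt (by linarith)
    linarith
  · rintro g ⟨j, rfl | rfl⟩
    · exact ⟨j, Or.inr rfl⟩
    · exact ⟨j, Or.inl (neg_neg _)⟩
  · have : DD q = Set.range (gX q) ∪ Set.range (fun j => - gX q j) := by
      ext x
      constructor
      · rintro ⟨j, rfl | rfl⟩
        · exact Or.inl ⟨j, rfl⟩
        · exact Or.inr ⟨j, rfl⟩
      · rintro (⟨j, rfl⟩ | ⟨j, rfl⟩)
        · exact ⟨j, Or.inl rfl⟩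
        · exact ⟨j, Or.inr rfl⟩
    rw [this]
    exact (Set.countable_range _).union (Set.countable_range _)
  · rw [norm_fX hq]; rfl
  · intro hconv
    have h1 := hconv (fX q) (hrun t ht0 ht1)
    have h2 : (1 : ℝ) / 2 ≤ 0 := ge_of_tendsto' h1 hlow'
    norm_num at h2

end Pool.Agent.Results.MP_ecafc5_an.NearHilbert
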